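import Mathlib

/-!
The group of all permutations of the integers and the group of all homeomorphisms of the unit
interval are not isomorphic under decomposition.

The proof colours pairs of words over the alphabet `ZMod 3 × ZMod 3` by the piece containing the
corresponding product in the symmetric group and applies the Hales-Jewett theorem; a
monochromatic line yields an element of order three in the group of homeomorphisms.
-/

namespace Pool.Agent.Results.MP_0a04b1_lc.NotDecomposable

open scoped unitInterval

/-- The representation (multiplication graph) of a group `G`, carried to a set `E` by a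
bijection `φ : G ≃ E`. -/
def rep {G E : Type} [Group G] (φ : G ≃ E) : Set (E × E × E) :=
  {t | φ.symm t.1 * φ.symm t.2.1 = φ.symm t.2.2}

/-- The coordinatewise map `(x, y, z) ↦ (f x, f y, f z)`. -/
def act {E : Type} (f : E ≃ E) (t : E × E × E) : E × E × E :=
  (f t.1, f t.2.1, f t.2.2)

/-- Product-isomorphic subsets of `E³`. -/
def ProductIsomorphic {E : Type} (A B : Set (E × E × E)) : Prop :=
  ∃ f : E ≃ E, act f '' A = B

/-- Product-isomorphic under decomposition: partitions of `A` and `B` into the same finite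
number `m ≥ 1` of pairwise disjoint pieces, corresponding pieces being product-isomorphic. -/
def IsomorphicUnderDecomposition {E : Type} (A B : Set (E × E × E)) : Prop :=
  ∃ m : ℕ, 1 ≤ m ∧ ∃ P Q : Fin m → Set (E × E × E),
    Pairwise (Function.onFun Disjoint P) ∧ (⋃ i, P i) = A ∧
    Pairwise (Function.onFun Disjoint Q) ∧ (⋃ i, Q i) = B ∧
    ∀ i, ProductIsomorphic (P i) (Q i)

/-- The combinatorial core. -/
theorem exists_order_three {G H : Type} [Group G] [Group H] {κ : Type} [Finite κ]
    (e : ∀ (ι : Type) [Fintype ι], (ι → ZMod 3) → G)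
    (he_add : ∀ (ι : Type) [Fintype ι] (a b : ι → ZMod 3), e ι (a + b) = e ι a * e ι b)
    (he_inj : ∀ (ι : Type) [Fintype ι], Function.Injective (e ι))
    (c : G → G → κ) (f : κ → G → H) (hf : ∀ k, Function.Injective (f k))
    (hm : ∀ x y, f (c x y) x * f (c x y) y = f (c x y) (x * y)) :
    ∃ t : H, t ≠ 1 ∧ t * t * t = 1 := by
  classical
  obtain ⟨ι, hι, hl⟩ := Combinatorics.Line.exists_mono_in_high_dimension (ZMod 3 × ZMod 3) κ
  obtain ⟨l, k, hk⟩ := hl (fun w => c (e ι (fun i => (w i).1)) (e ι (fun i => (w i).2)))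
  -- the direction of the line
  let J : ι → ZMod 3 := fun i => if l.idxFun i = none then 1 else 0
  let p : ι → ZMod 3 := fun i => ((l.idxFun i).getD (0, 0)).1
  let q : ι → ZMod 3 := fun i => ((l.idxFun i).getD (0, 0)).2
  have h1 : ∀ u v : ZMod 3, (fun i => (l (u, v) i).1) = p + (fun i => u * J i) := by
    intro u v
    funext i
    cases h : l.idxFun i with
    | none => simp [Combinatorics.Line.coe_apply, p, J, h]
    | some x => simp [Combinatorics.Line.coe_apply, p, J, h]
  have h2 : ∀ u v : ZMod 3, (fun i => (l (u, v) i).2) = q + (fun i => v * J i) := by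
    intro u v
    funext i
    cases h : l.idxFun i with
    | none => simp [Combinatorics.Line.coe_apply, q, J, h]
    | some x => simp [Combinatorics.Line.coe_apply, q, J, h]
  let a : ZMod 3 → H := fun u => f k (e ι (p + (fun i => u * J i)))
  let b : ZMod 3 → H := fun v => f k (e ι (q + (fun i => v * J i)))
  let g : ZMod 3 → H := fun w => f k (e ι (p + q + (fun i => w * J i)))
  have hab : ∀ u v, a u * b v = g (u + v) := by
    intro u v
    have hc : c (e ι (p + (fun i => u * J i))) (e ι (q + (fun i => v * J i))) = k := by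
      have := hk (u, v)
      simp only [h1, h2] at this
      exact this
    have := hm (e ι (p + (fun i => u * J i))) (e ι (q + (fun i => v * J i)))
    rw [hc, ← he_add] at this
    show f k _ * f k _ = f k _
    rw [this]
    congr 2
    funext i
    simp only [Pi.add_apply]
    ring
  have e1 : a 0 * b 1 = a 1 * b 0 := by rw [hab, hab]; rfl
  have e2 : a 1 * b 1 = a 2 * b 0 := by rw [hab, hab]; rfl
  have e3 : a 2 * b 1 = a 0 * b 0 := by rw [hab, hab]; rfl
  have f1 : a 1 = a 0 * (b 1 * (b 0)⁻¹) := by rw [← mul_assoc, e1]; group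
  have f2 : a 2 = a 1 * (b 1 * (b 0)⁻¹) := by rw [← mul_assoc, e2]; group
  have f3 : a 0 = a 2 * (b 1 * (b 0)⁻¹) := by rw [← mul_assoc, e3]; group
  refine ⟨b 1 * (b 0)⁻¹, ?_, ?_⟩
  · intro h
    rw [h, mul_one] at f1
    have h3 := he_inj ι (hf k f1)
    obtain ⟨i, hi⟩ := l.proper
    have h4 := congrFun h3 i
    simp [J, hi] at h4
  · have h5 : a 0 * (b 1 * (b 0)⁻¹ * (b 1 * (b 0)⁻¹) * (b 1 * (b 0)⁻¹)) = a 0 * 1 := by
      rw [mul_one, ← mul_assoc (a 0) (_ * _) _, ← mul_assoc (a 0) (b 1 * (b 0)⁻¹) _, ← f1, ← f2,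
        ← f3]
    exact mul_left_cancel h5

/-- The permutation of `ι × ZMod 3` translating the `i`-th copy of `ZMod 3` by `a i`. -/
def shiftPerm (ι : Type) (a : ι → ZMod 3) : Equiv.Perm (ι × ZMod 3) where
  toFun x := (x.1, x.2 + a x.1)
  invFun x := (x.1, x.2 - a x.1)
  left_inv x := by ext <;> simp
  right_inv x := by ext <;> simp

theorem shiftPerm_add (ι : Type) (a b : ι → ZMod 3) :
    shiftPerm ι (a + b) = shiftPerm ι a * shiftPerm ι b := by
  ext x
  · rfl
  · simp only [shiftPerm, Equiv.coe_fn_mk, Equiv.Perm.mul_apply, Pi.add_apply]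
    rw [add_comm (a x.1), add_assoc]

theorem shiftPerm_injective (ι : Type) : Function.Injective (shiftPerm ι) := by
  intro a b h
  funext i
  have := congrArg (fun s : Equiv.Perm (ι × ZMod 3) => (s (i, 0)).2) h
  simpa [shiftPerm] using this

/-- There is no homeomorphism of order three of the unit interval. -/
theorem no_order_three (t : I ≃ₜ I) (h : t * t * t = 1) : t = 1 := by
  have hx : ∀ x, t (t (t x)) = x := fun x => by
    have := congrArg (fun s : I ≃ₜ I => s x) h
    simpa using this
  ext1 x
  show t x = x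
  rcases Continuous.strictMono_of_inj_boundedOrder' t.continuous t.injective with hm | hm
  · rcases lt_trichotomy (t x) x with h1 | h1 | h1
    · have h2 := hm h1
      have h3 := hm h2
      rw [hx] at h3
      exact absurd (h3.trans (h2.trans h1)) (lt_irrefl _)
    · exact h1
    · have h2 := hm h1
      have h3 := hm h2
      rw [hx] at h3
      exact absurd (h1.trans (h2.trans h3)) (lt_irrefl _)
  · exfalso
    have h0 : (0 : I) < 1 := by simp
    have h1 := hm h0
    have h2 := hm h1
    have h3 := hm h2
    rw [hx, hx] at h3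
    exact absurd (h0.trans h3) (lt_irrefl _)

/-- The group `S` of all permutations of the integers and the group `H` of all homeomorphisms of
the unit interval are not isomorphic under decomposition, however their underlying sets are
identified with one set `E`. -/
theorem result (E : Type) (φ : Equiv.Perm ℤ ≃ E) (ψ : (I ≃ₜ I) ≃ E) :
    ¬ IsomorphicUnderDecomposition (rep φ) (rep ψ) := by
  rintro ⟨m, -, P, Q, -, hP, -, hQ, hPQ⟩
  choose F hF using hPQ
  have hcol : ∀ x y : Equiv.Perm ℤ, ∃ k : Fin m, (φ x, φ y, φ (x * y)) ∈ P k := by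
    intro x y
    have : (φ x, φ y, φ (x * y)) ∈ ⋃ i, P i := by
      rw [hP]
      simp [rep]
    simpa using this
  choose c hc using hcol
  let f : Fin m → Equiv.Perm ℤ → (I ≃ₜ I) := fun k x => ψ.symm (F k (φ x))
  have hm : ∀ x y, f (c x y) x * f (c x y) y = f (c x y) (x * y) := by
    intro x y
    have h1 : act (F (c x y)) (φ x, φ y, φ (x * y)) ∈ Q (c x y) := by
      rw [← hF (c x y)]
      exact Set.mem_image_of_mem _ (hc x y)
    have h2 : act (F (c x y)) (φ x, φ y, φ (x * y)) ∈ rep ψ := by
      rw [← hQ]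
      exact Set.mem_iUnion_of_mem _ h1
    exact h2
  have hemb : ∀ (ι : Type) [Fintype ι], Nonempty (ι × ZMod 3 ↪ ℤ) := by
    intro ι _
    obtain ⟨g, hg⟩ := Countable.exists_injective_nat (ι × ZMod 3)
    exact ⟨⟨fun x => (g x : ℤ), fun x y hxy => hg (by simpa using hxy)⟩⟩
  let em : ∀ (ι : Type) [Fintype ι], (ι × ZMod 3 ↪ ℤ) := fun ι _ => (hemb ι).some
  obtain ⟨t, ht1, ht3⟩ := exists_order_three (G := Equiv.Perm ℤ) (H := (I ≃ₜ I))
    (fun ι _ a => Equiv.Perm.viaEmbeddingHom (em ι) (shiftPerm ι a))
    (fun ι _ a b => by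
      show Equiv.Perm.viaEmbeddingHom (em ι) _ = Equiv.Perm.viaEmbeddingHom (em ι) _ *
        Equiv.Perm.viaEmbeddingHom (em ι) _
      rw [shiftPerm_add, map_mul])
    (fun ι _ a b h => shiftPerm_injective ι (Equiv.Perm.viaEmbeddingHom_injective (em ι) h))
    c f (fun k x y h => φ.injective ((F k).injective (ψ.symm.injective h))) hm
  exact ht1 (no_order_three t ht3)

end Pool.Agent.Results.MP_0a04b1_lc.NotDecomposable
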